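import Pool.Agent.Helper10.TRI.Defs
import Pool.Agent.Helper14.CB.Hv

/-!
# T-TRI, pieces D6 and D6': translated polynomials
-/

set_option autoImplicit false

namespace Pool.Agent.Helper32.CB

open NumberField Polynomial Pool.Agent.Helper4.CB

variable {K : Type} [Field K] [NumberField K]

/-- **D6.** the values of the translated polynomial; `e - 1` is the translation -/
theorem hv_translate {f : K[X]} {N : ℕ} (hN : N ≠ 0) {G : (𝓞 K)[X]} (hG : G.Monic)
    (hGf : G.map (algebraMap (𝓞 K) K) = f.scaleRoots (N : K)) (c u v : 𝓞 K) (hv0 : v ≠ 0) :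
    ((hv (G.comp (X + C c)) u v : 𝓞 K) : K) =
      ((N : K) * v) ^ f.natDegree * f.eval (((u : K) + c * v) / (N * v)) := by
  have hinj : Function.Injective (algebraMap (𝓞 K) K) := FaithfulSMul.algebraMap_injective _ _
  have hv1 : algebraMap (𝓞 K) K v ≠ 0 := by
    rwa [Ne, FaithfulSMul.algebraMap_eq_zero_iff]
  have hN1 : (N : K) ≠ 0 := Nat.cast_ne_zero.2 hN
  have hdeg : (G.comp (X + C c)).natDegree = f.natDegree := by
    rw [natDegree_comp, natDegree_X_add_C, mul_one, ← natDegree_map_eq_of_injective hinj G, hGf,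
      natDegree_scaleRoots]
  change algebraMap (𝓞 K) K (hv (G.comp (X + C c)) u v) = _
  rw [Pool.Agent.Helper14.CB.coe_hv _ _ _ hv0, hdeg, Polynomial.map_comp, hGf, eval_comp]
  have h1 : eval (algebraMap (𝓞 K) K u / algebraMap (𝓞 K) K v)
      (Polynomial.map (algebraMap (𝓞 K) K) (X + C c)) =
      (N : K) * (((u : K) + c * v) / (N * v)) := by
    rw [Polynomial.map_add, map_X, map_C, eval_add, eval_X, eval_C]
    change algebraMap (𝓞 K) K u / algebraMap (𝓞 K) K v + algebraMap (𝓞 K) K c =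
      (N : K) * ((algebraMap (𝓞 K) K u + algebraMap (𝓞 K) K c * algebraMap (𝓞 K) K v) /
        (N * algebraMap (𝓞 K) K v))
    field_simp
  rw [h1]
  have h2 := scaleRoots_eval₂_mul (p := f) (RingHom.id K) (((u : K) + c * v) / (N * v)) (N : K)
  simp only [eval₂_id, RingHom.id_apply] at h2
  rw [h2, mul_pow]
  change algebraMap (𝓞 K) K v ^ f.natDegree * ((N : K) ^ f.natDegree * _) =
    (N : K) ^ f.natDegree * algebraMap (𝓞 K) K v ^ f.natDegree * _
  ring

/-- Bezout identities are translated -/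
theorem bezout_comp {P Q : (𝓞 K)[X]} (c : 𝓞 K) {m2 m1 : ℕ} (hm : m2 ∣ m1)
    (h : ∃ A B : (𝓞 K)[X], A * P + B * Q = C (m2 : 𝓞 K)) :
    ∃ A B : (𝓞 K)[X], A * P.comp (X + C c) + B * Q.comp (X + C c) = C (m1 : 𝓞 K) := by
  obtain ⟨A, B, hAB⟩ := h
  obtain ⟨k, rfl⟩ := hm
  refine ⟨C (k : 𝓞 K) * A.comp (X + C c), C (k : 𝓞 K) * B.comp (X + C c), ?_⟩
  have h1 := congrArg (fun R => R.comp (X + C c)) hAB
  simp only [add_comp, mul_comp, C_comp] at h1
  rw [mul_assoc, mul_assoc, ← mul_add, h1, ← C_mul, Nat.cast_mul, mul_comm]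

/-- **D6'.** the translated polynomial is monic, irreducible, of the same degree -/
theorem translate_props {G G' : (𝓞 K)[X]} (hG : G.Monic)
    (hirr : Irreducible (G.map (algebraMap (𝓞 K) K))) (c : 𝓞 K) {m2 m1 : ℕ} (hm : m2 ∣ m1)
    (hd : ∃ A B : (𝓞 K)[X], A * G + B * derivative G = C (m2 : 𝓞 K)) :
    (G.comp (X + C c)).Monic ∧ (G.comp (X + C c)).natDegree = G.natDegree ∧
      Irreducible ((G.comp (X + C c)).map (algebraMap (𝓞 K) K)) ∧
      (G.comp (X + C c)).eval 1 = G.eval (1 + c) ∧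
      (∃ A B : (𝓞 K)[X], A * G.comp (X + C c) + B * derivative (G.comp (X + C c)) =
        C (m1 : 𝓞 K)) ∧
      ((∃ A B : (𝓞 K)[X], A * G + B * G' = C (m2 : 𝓞 K)) →
        ∃ A B : (𝓞 K)[X], A * G.comp (X + C c) + B * G'.comp (X + C c) = C (m1 : 𝓞 K)) := by
  refine ⟨hG.comp_X_add_C c, ?_, ?_, ?_, ?_, fun h => bezout_comp c hm h⟩
  · rw [natDegree_comp, natDegree_X_add_C, mul_one]
  · rw [Polynomial.map_comp, Polynomial.map_add, map_X, map_C]
    have h1 := (MulEquiv.irreducible_iff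
      (algEquivAevalXAddC (algebraMap (𝓞 K) K c)).toMulEquiv
      (x := G.map (algebraMap (𝓞 K) K))).2 hirr
    exact h1
  · rw [eval_comp, eval_add, eval_X, eval_C]
  · have h1 := bezout_comp c hm hd
    have h2 : derivative (G.comp (X + C c)) = (derivative G).comp (X + C c) := by
      rw [derivative_comp, derivative_add, derivative_X, derivative_C, add_zero, one_mul]
    rw [h2]
    exact h1

end Pool.Agent.Helper32.CB
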