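import Pool.Agent.Helper35.CB.InstDefs
import Pool.Agent.Helper35.CB.Legendre

/-!
# CB, INST: points of the box on a line through the origin; norms and sizes
-/

set_option autoImplicit false

namespace Pool.Agent.Helper32.CB

open NumberField Polynomial Pool.Agent.Helper4.CB Pool.Agent.Helper35.CB

/-- the norm of an integer with bounded absolute values -/
theorem norm_le_of_size {K : Type} [Field K] [NumberField K] {x : 𝓞 K} {B : ℕ}
    (h : ∀ φ : K →+* ℂ, ‖φ x‖ ≤ B) :
    (Algebra.norm ℤ x).natAbs ≤ B ^ Module.finrank ℚ K := by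
  have h1 : |((Algebra.norm ℤ x : ℤ) : ℝ)| ≤ (B : ℝ) ^ Module.finrank ℚ K := by
    rw [abs_norm_eq_prod]
    calc ∏ σ : K →+* ℂ, ‖σ (x : K)‖ ≤ ∏ σ : K →+* ℂ, (B : ℝ) :=
          Finset.prod_le_prod (fun _ _ => norm_nonneg _) (fun σ _ => h σ)
      _ = (B : ℝ) ^ Module.finrank ℚ K := by
          rw [Finset.prod_const, Finset.card_univ, NumberField.Embeddings.card K ℂ]
  rw [← Int.cast_abs, Int.abs_eq_natAbs] at h1
  exact_mod_cast h1

open Classical in
/-- points of a box with a given relation which lets `v` determine `u` -/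
theorem card_line_gen (K : Type) [Field K] [NumberField K] (τ : 𝓞 K × 𝓞 K) (X : ℕ)
    (A : Finset (𝓞 K × 𝓞 K)) (hA : A ⊆ bx (eK K) τ X)
    (hinj : ∀ g ∈ A, ∀ h ∈ A, g.2 = h.2 → g.1 = h.1) :
    A.card ≤ X ^ Module.finrank ℚ K := by
  have h1 : A.card ≤ (Fintype.piFinset
      (fun _ : Fin (Module.finrank ℚ K) => Finset.Ico (0 : ℤ) X)).card := by
    refine Finset.card_le_card_of_injOn
      (fun g => fun i => (bas1 K).repr (g.2 - τ.2) i) ?_ ?_
    · intro g hg
      have h2 := (mem_box.1 (hA hg)).2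
      rw [Finset.mem_coe, Fintype.mem_piFinset]
      intro i
      rw [Finset.mem_Ico]
      exact h2 i
    · intro g hg h hh hgh
      have h3 : (bas1 K).repr (g.2 - τ.2) = (bas1 K).repr (h.2 - τ.2) := by
        ext i
        exact congrFun hgh i
      have h4 : g.2 - τ.2 = h.2 - τ.2 := (bas1 K).repr.injective h3
      have h5 : g.2 = h.2 := sub_left_injective h4
      exact Prod.ext (hinj g hg h hh h5) h5
  refine h1.trans (le_of_eq ?_)
  rw [Fintype.card_piFinset]
  simp

open Classical in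
/-- points on a line through the origin: `v` determines the point -/
theorem card_line (K : Type) [Field K] [NumberField K] (z : K) (τ : 𝓞 K × 𝓞 K) (X : ℕ) :
    ((bx (eK K) τ X).filter (fun g => (g.1 : K) = z * (g.2 : K))).card ≤
      X ^ Module.finrank ℚ K := by
  refine card_line_gen K τ X _ (Finset.filter_subset _ _) ?_
  intro g hg h hh hgh
  rw [Finset.mem_filter] at hg hh
  apply RingOfIntegers.ext
  rw [hg.2, hh.2, hgh]

open Classical in
/-- points with `u / (m v) = z` -/
theorem card_line_div (K : Type) [Field K] [NumberField K] (z : K) (m : ℕ) (τ : 𝓞 K × 𝓞 K)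
    (X : ℕ) :
    ((bx (eK K) τ X).filter (fun g => (m : K) * (g.2 : K) ≠ 0 ∧
      (g.1 : K) / (m * (g.2 : K)) = z)).card ≤ X ^ Module.finrank ℚ K := by
  refine card_line_gen K τ X _ (Finset.filter_subset _ _) ?_
  intro g hg h hh hgh
  rw [Finset.mem_filter] at hg hh
  apply RingOfIntegers.ext
  have h1 := hg.2.2
  have h2 := hh.2.2
  rw [div_eq_iff hg.2.1] at h1
  rw [div_eq_iff hh.2.1] at h2
  rw [h1, h2, hgh]

open Classical in
/-- points with `u / (m v) ∈ Z` -/
theorem card_exceptional (K : Type) [Field K] [NumberField K] (Z : Finset K) (m : ℕ)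
    (τ : 𝓞 K × 𝓞 K) (X : ℕ) :
    ((bx (eK K) τ X).filter (fun g => (m : K) * (g.2 : K) ≠ 0 ∧
      (g.1 : K) / (m * (g.2 : K)) ∈ Z)).card ≤ Z.card * X ^ Module.finrank ℚ K := by
  have h1 : (bx (eK K) τ X).filter (fun g => (m : K) * (g.2 : K) ≠ 0 ∧
      (g.1 : K) / (m * (g.2 : K)) ∈ Z) ⊆ Z.biUnion (fun z => (bx (eK K) τ X).filter
        (fun g => (m : K) * (g.2 : K) ≠ 0 ∧ (g.1 : K) / (m * (g.2 : K)) = z)) := by
    intro g hg
    rw [Finset.mem_filter] at hg
    rw [Finset.mem_biUnion]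
    exact ⟨_, hg.2.2, Finset.mem_filter.2 ⟨hg.1, hg.2.1, rfl⟩⟩
  refine (Finset.card_le_card h1).trans ?_
  refine Finset.card_biUnion_le_card_mul _ _ _ ?_
  intro z _
  exact card_line_div K z m τ X

end Pool.Agent.Helper32.CB
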